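import Mathlib
import Pool.Agent.Q217.TN.FormCover

set_option autoImplicit false

/-!
# MP_eba1ef_gt: rotation invariant bodies of alternating forms

Let `K` be a convex body in the space of the alternating `k`-forms on `ℝ^n`, `1 ≤ k < n`, of
dimension `d = C(n, k)`, which is invariant under the rotations of `ℝ^n`: if `f ∈ K` then the
pullback of `f` by every `U ∈ SO(n)` is in `K`. If `K = -K` then `K` is covered by
`1 + 13 d log(2d²+2d+1) 2^d e^(-s)` translates of its interior, `s = (n - k) / 3840`, and by less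
than `2^d` (Hadwiger's covering conjecture, with the strict inequality) if `s ≥ 5 + 2 log d`. If
`K ⊆ -a K` then this holds with `s = (n - k) / (960 (1 + a)²)`; for odd `k ≤ n / 4` it holds with
`s = (n - k) / 8640` without any assumption about the symmetry of `K`.

So the conjecture is true, with the strict inequality, for all these bodies if `300000 k ≤ n`, and
`K = -K` or `k` is odd: for forms of a degree proportional to `n`, the dimension `d` being
exponential in `n`. An example is the unit ball of the comass norm (the norm of the space of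
continuous alternating maps).

The theorem `CompactLieSymmetries` of the starting files gives the bounds with
`(n - 2) / (960 k² (1 + a)²)` in the place of `s` (representations of `SO(n)` of degree `k`), so the
conjecture for `k` up to `c (n / log n)^(1/3)`.

Proof. The Casimir operator of `so(n)` is the scalar `2 k (n - k)` on the alternating tensors. Let
`A` be a skew-symmetric operator, and `D` the sum of the operators `A_t`, the operator `A` applied
to the index `t`. For alternating tensors `x` we have `∑ ‖A_t x‖² ≤ ‖A‖_HS² ‖x‖²` by Pauli's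
exclusion principle: if `P` is the projection to the line of `v` then the tensors `P_t x` are
orthogonal to each other. Therefore `‖D x‖² ≤ k ‖A‖_HS² ‖x‖²`, and the quotient of the Casimir
eigenvalue and of the square of the norm bound is `(n - k) / 2`: it does not get worse with `k`. The
covering bound for a scalar Casimir operator is `Pool.Agent.Y368.Lie.cover_scalar'` of the starting
library. For odd `k` and odd `n` the mean of the diagonal matrices with one entry `1` and the others
`-1` acts on the `k`-forms as `-(n - 2k) / n`.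
-/

namespace Pool.Agent.Results.MP_eba1ef_gt.AlternatingForms

open Module

/-- The alternating `k`-forms on the Euclidean space `ℝ^n`. -/
abbrev Form (k n : ℕ) := EuclideanSpace ℝ (Fin n) [⋀^Fin k]→L[ℝ] ℝ

/-- The pullback of a form by the linear map with the matrix `U`:
`(v_1, ..., v_k) ↦ f (U v_1, ..., U v_k)`. -/
noncomputable def pullback {k n : ℕ} (U : Matrix (Fin n) (Fin n) ℝ) (f : Form k n) : Form k n :=
  f.compContinuousLinearMap (Matrix.toEuclideanCLM (𝕜 := ℝ) (n := Fin n) U)

/-- `K` is invariant under the rotations of `ℝ^n`. -/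
def RotationInvariant {k n : ℕ} (K : Set (Form k n)) : Prop :=
  ∀ U ∈ Matrix.specialOrthogonalGroup (Fin n) ℝ, ∀ f ∈ K, pullback U f ∈ K

/-- The bounds of the theorem, in terms of the dimension `d` and of the parameter `s`: `K` is
covered by at most `1 + 13 d log(2d²+2d+1) 2^d e^(-s)` translates of its interior, and by less than
`2^d` if `s ≥ 5 + 2 log d`. -/
def FewTranslates {E : Type*} [NormedAddCommGroup E] (d : ℕ) (K : Set E) (s : ℝ) : Prop :=
  ∃ T : Finset E, K ⊆ ⋃ t ∈ T, (fun x => t + x) '' interior K ∧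
    (T.card : ℝ) ≤ 1 + 13 * d * Real.log (2 * d ^ 2 + 2 * d + 1) * 2 ^ d * Real.exp (-s) ∧
    (5 + 2 * Real.log d ≤ s → T.card < 2 ^ d)

theorem FewTranslates.mono {E : Type*} [NormedAddCommGroup E] {d : ℕ} {K : Set E}
    {s s' : ℝ} (h : FewTranslates d K s) (hs : s' ≤ s) : FewTranslates d K s' := by
  obtain ⟨T, h1, h2, h3⟩ := h
  refine ⟨T, h1, h2.trans ?_, fun h => h3 (h.trans hs)⟩
  have hlog : 0 ≤ Real.log (2 * (d : ℝ) ^ 2 + 2 * d + 1) := by
    apply Real.log_nonneg
    have : (0 : ℝ) ≤ d := Nat.cast_nonneg _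
    nlinarith
  gcongr

theorem norm_clm_le {n : ℕ} (U : Matrix (Fin n) (Fin n) ℝ)
    (hU : U ∈ Matrix.specialOrthogonalGroup (Fin n) ℝ) :
    ‖Matrix.toEuclideanCLM (𝕜 := ℝ) (n := Fin n) U‖ ≤ 1 := by
  have h1 := (Matrix.mem_specialOrthogonalGroup_iff.1 hU).1
  have h2 : star U * U = 1 := (Matrix.mem_orthogonalGroup_iff' (Fin n) ℝ).1 h1
  have h3 : star (Matrix.toEuclideanCLM (𝕜 := ℝ) (n := Fin n) U)
      * Matrix.toEuclideanCLM (𝕜 := ℝ) (n := Fin n) U = 1 := by
    rw [← map_star, ← map_mul, h2, map_one]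
  have h4 := CStarRing.norm_star_mul_self (x := Matrix.toEuclideanCLM (𝕜 := ℝ) (n := Fin n) U)
  rw [h3] at h4
  have h5 : ‖(1 : EuclideanSpace ℝ (Fin n) →L[ℝ] EuclideanSpace ℝ (Fin n))‖ ≤ 1 :=
    ContinuousLinearMap.norm_id_le
  nlinarith [norm_nonneg (Matrix.toEuclideanCLM (𝕜 := ℝ) (n := Fin n) U)]

/-- **Theorem.** Hadwiger's bounds for the rotation invariant convex bodies of alternating
`k`-forms on `ℝ^n`. -/
theorem result (k n : ℕ) (hk : 1 ≤ k) (hkn : k < n) :
    finrank ℝ (Form k n) = n.choose k ∧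
    (∀ K : Set (Form k n), Convex ℝ K → IsCompact K → (interior K).Nonempty →
      RotationInvariant K →
      (∀ a : ℝ, 0 < a → (∀ f ∈ K, -(a⁻¹ • f) ∈ K) →
        FewTranslates (n.choose k) K (((n : ℝ) - k) / (960 * (1 + a) ^ 2))) ∧
      ((∀ f ∈ K, -f ∈ K) → FewTranslates (n.choose k) K (((n : ℝ) - k) / 3840)) ∧
      (Odd k → 4 * k ≤ n → FewTranslates (n.choose k) K (((n : ℝ) - k) / 8640)) ∧
      (300000 * k ≤ n → (∀ f ∈ K, -f ∈ K) ∨ Odd k →
        ∃ T : Finset (Form k n), K ⊆ ⋃ t ∈ T, (fun x => t + x) '' interior K ∧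
          T.card < 2 ^ n.choose k)) ∧
    -- the unit ball of the comass norm
    (300000 * k ≤ n → ∃ T : Finset (Form k n),
      Metric.closedBall 0 1 ⊆ ⋃ t ∈ T, (fun x => t + x) '' Metric.ball 0 1 ∧
      T.card < 2 ^ n.choose k) := by
  have hfr := Q217.TN.finrank_form k n
  have hd := Q217.TN.two_le_choose hk hkn
  have hk' : (1 : ℝ) ≤ k := by exact_mod_cast hk
  have hkn' : (k : ℝ) < n := by exact_mod_cast hkn
  have hpos : 0 ≤ (n : ℝ) - k := by linarith
  have main : ∀ K : Set (Form k n), Convex ℝ K → IsCompact K → (interior K).Nonempty →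
      RotationInvariant K →
      (∀ a : ℝ, 0 < a → (∀ f ∈ K, -(a⁻¹ • f) ∈ K) →
        FewTranslates (n.choose k) K (((n : ℝ) - k) / (960 * (1 + a) ^ 2))) ∧
      ((∀ f ∈ K, -f ∈ K) → FewTranslates (n.choose k) K (((n : ℝ) - k) / 3840)) ∧
      (Odd k → 4 * k ≤ n → FewTranslates (n.choose k) K (((n : ℝ) - k) / 8640)) ∧
      (300000 * k ≤ n → (∀ f ∈ K, -f ∈ K) ∨ Odd k →
        ∃ T : Finset (Form k n), K ⊆ ⋃ t ∈ T, (fun x => t + x) '' interior K ∧
          T.card < 2 ^ n.choose k) := by
    intro K hK hKc hKi hinv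
    have key : ∀ a : ℝ, 0 < a → (∀ f ∈ K, -(a⁻¹ • f) ∈ K) →
        FewTranslates (n.choose k) K (((n : ℝ) - k) / (960 * (1 + a) ^ 2)) := by
      intro a ha hKa
      obtain ⟨T, h1, h2⟩ := Q217.TN.cover_form hk hkn K hK hKc hKi hinv a ha hKa
      rw [hfr] at h2
      exact ⟨T, h1, h2, fun hs => Y368.Lie.strict _ hd _ _ h2 hs⟩
    have sym : (∀ f ∈ K, -f ∈ K) → FewTranslates (n.choose k) K (((n : ℝ) - k) / 3840) := by
      intro hs
      refine (key 1 one_pos fun f hf => by rw [inv_one, one_smul]; exact hs f hf).mono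
        (le_of_eq ?_)
      norm_num
    have odd : Odd k → 4 * k ≤ n → FewTranslates (n.choose k) K (((n : ℝ) - k) / 8640) := by
      intro ho h4
      have h4' : 4 * (k : ℝ) ≤ n := by exact_mod_cast h4
      have h5 : 0 < (n : ℝ) - 2 * k := by linarith
      have h6 : (n : ℝ) / (n - 2 * k) ≤ 2 := by
        rw [div_le_iff₀ h5]
        linarith
      have h7 : 0 < (n : ℝ) / (n - 2 * k) := div_pos (by linarith) h5
      refine (key ((n : ℝ) / (n - 2 * k)) h7
        (Q217.TN.almost_symm_form ho (by omega) K hK hinv)).mono ?_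
      apply div_le_div_of_nonneg_left hpos (by positivity)
      calc 960 * (1 + (n : ℝ) / (n - 2 * k)) ^ 2 ≤ 960 * (1 + 2) ^ 2 := by gcongr
        _ = 8640 := by norm_num
    refine ⟨key, sym, odd, ?_⟩
    intro h3 hor
    have hnum := Q217.TN.num_form hk h3
    have hfew : FewTranslates (n.choose k) K (((n : ℝ) - k) / 8640) := by
      rcases hor with hs | ho
      · refine (sym hs).mono ?_
        apply div_le_div_of_nonneg_left hpos (by norm_num) (by norm_num)
      · exact odd ho (by omega)
    obtain ⟨T, h1, -, h4⟩ := hfew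
    exact ⟨T, h1, h4 hnum⟩
  refine ⟨hfr, main, ?_⟩
  intro h3
  have hc : IsCompact (Metric.closedBall (0 : Form k n) 1) := by
    have : ProperSpace (Form k n) := FiniteDimensional.proper_real _
    exact isCompact_closedBall _ _
  have hint : interior (Metric.closedBall (0 : Form k n) 1) = Metric.ball 0 1 :=
    interior_closedBall _ one_ne_zero
  have h := (main (Metric.closedBall (0 : Form k n) 1) (convex_closedBall _ _) hc
    (by rw [hint]; exact ⟨0, by simp⟩) (by
      intro U hU f hf
      rw [mem_closedBall_zero_iff] at hf ⊢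
      have h1 := f.norm_compContinuousLinearMap_le
        (Matrix.toEuclideanCLM (𝕜 := ℝ) (n := Fin n) U)
      have h2 := norm_clm_le U hU
      refine h1.trans ?_
      calc ‖f‖ * ‖Matrix.toEuclideanCLM (𝕜 := ℝ) (n := Fin n) U‖ ^ Fintype.card (Fin k)
          ≤ 1 * 1 ^ Fintype.card (Fin k) := by gcongr
        _ = 1 := by simp)).2.2.2 h3 (Or.inl fun f hf => by
      rw [mem_closedBall_zero_iff] at hf ⊢
      rwa [norm_neg])
  rwa [hint] at h

end Pool.Agent.Results.MP_eba1ef_gt.AlternatingForms
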