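import Mathlib
import Pool.Agent.Q39.HD.MSum

set_option autoImplicit false

/-!
# MP_eba1ef_gt: Hadwiger's covering conjecture for differences and joins of anti-blocking bodies

An anti-blocking body (convex corner) is a convex body `A ⊆ ℝ^n_{≥0}` which contains with `x` every
`y` with `0 ≤ y ≤ x`. A convex body `K ⊆ ℝ^n` is locally anti-blocking (`LAB`) when it contains
with `x` the box spanned by `0` and `x`; this includes all anti-blocking and all unconditional
bodies. For `x ∈ ℝ^n`, `x⁺` and `x⁻` are the positive and the negative part.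

We prove, in every dimension `n`:

1. if `K` is locally anti-blocking and `x⁺ - y⁻ ∈ K` for all `x, y ∈ K` (i.e. `K = A - B`, where `A`
   and `B` are anti-blocking, possibly of lower dimension; for example any anti-blocking body), then
   `c(K) ≤ 2 ^ n`, and `c(K) ≤ 2 ^ n - 1` unless `K` is a box;
2. if `K` is locally anti-blocking and for every `x ∈ K` one of `x⁺`, `-x⁻` is an interior point
   of `K`, then `c(K) ≤ 2 * n.choose (n / 2)`, which is less than `2 ^ n` for `n ≥ 3`;
3. for anti-blocking bodies `A, B ⊆ ℝ^n` and `M ⊆ ℝ^2` the union `K` of all `s A - t B` with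
   `(s, t) ∈ M` is a convex body with `c(K) ≤ 2 ^ n`; if `M` is a rectangle and `K` is not a box then
   `c(K) ≤ 2 ^ n - 1`; if `M` is not a rectangle then `c(K) ≤ 2 * n.choose (n / 2)`;
4. `c(A - B) ≤ 2 ^ n - 1` unless `A` and `B` are both boxes, and
   `c(conv (A ∪ -B)) ≤ 2 * n.choose (n / 2)`.

The proof. Illumination: it suffices to find a finite set of directions `d`, such that for every
`x ∈ K` some `x + ε d` with `ε > 0` is an interior point. For 1 take `d = 1` where `x < 0` and
`d = - δ` elsewhere (with a slightly different choice on the coordinates on which `K ≥ 0`): in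
`A - B` the two parts `x⁺, x⁻` can be moved towards the interior at different speeds. For 2
decompose the Boolean lattice into `n.choose (n / 2)` chains (Dilworth and Sperner). If `-x⁻` is an
interior point and the support of `x⁺` belongs to the chain `𝒞`, the direction
`d i = - δ ^ #{S ∈ 𝒞 : i ∉ S}` does it: `x⁺` decreases on its support much faster than `x⁻`
increases elsewhere. The case that `x⁺` is an interior point is symmetric.
-/

namespace Pool.Agent.Results.MP_eba1ef_gt.AntiBlockingDifferences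

open Set Pool.Agent.Q39.HD
open scoped Pointwise

/-- `Covered N K` means that `K` is covered by at most `N` translates of its interior, i.e.
`c(K) ≤ N`. -/
def Covered {n : ℕ} (N : ℕ) (K : Set (Fin n → ℝ)) : Prop :=
  ∃ T : Finset (Fin n → ℝ), T.card ≤ N ∧ K ⊆ ⋃ t ∈ T, (fun x => t + x) '' interior K

/-- Convex bodies. -/
def Body {n : ℕ} (K : Set (Fin n → ℝ)) : Prop :=
  Convex ℝ K ∧ IsCompact K ∧ (interior K).Nonempty

/-- Locally anti-blocking: `K` contains with `x` every point of the box spanned by `0` and `x`. -/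
def LocallyAntiBlocking {n : ℕ} (K : Set (Fin n → ℝ)) : Prop :=
  ∀ x ∈ K, ∀ y : Fin n → ℝ,
    (∀ i, (0 ≤ y i ∧ y i ≤ x i) ∨ (x i ≤ y i ∧ y i ≤ 0)) → y ∈ K

/-- Anti-blocking bodies (convex corners). -/
def AntiBlockingBody {n : ℕ} (A : Set (Fin n → ℝ)) : Prop :=
  Body A ∧ (∀ x ∈ A, ∀ i, 0 ≤ x i) ∧
    ∀ x ∈ A, ∀ y : Fin n → ℝ, (∀ i, 0 ≤ y i ∧ y i ≤ x i) → y ∈ A

/-- `K` is a box with edges parallel to the axes. -/
def Box {n : ℕ} (K : Set (Fin n → ℝ)) : Prop := ∃ l u, K = Set.Icc l u

/-- The union of the bodies `s A - t B` with `(s, t) ∈ M`. -/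
def Sum {n : ℕ} (M : Set (Fin 2 → ℝ)) (A B : Set (Fin n → ℝ)) : Set (Fin n → ℝ) :=
  {x | ∃ p ∈ M, ∃ a ∈ A, ∃ b ∈ B, x = p 0 • a - p 1 • b}

theorem AntiBlockingBody.corner {n : ℕ} {A : Set (Fin n → ℝ)} (h : AntiBlockingBody A) :
    Corner A := ⟨h.1.1, h.1.2.1, h.1.2.2, h.2.1, h.2.2⟩

theorem choose_succ_le (m k : ℕ) : (m + 1).choose k ≤ 2 ^ m := by
  cases k with
  | zero => simpa using Nat.one_le_two_pow
  | succ j =>
    rw [Nat.choose_succ_succ]
    rcases Nat.lt_or_ge j m with h | h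
    · rw [← Nat.sum_range_choose m]
      have hsub : ({j, j + 1} : Finset ℕ) ⊆ Finset.range (m + 1) := by
        intro i hi
        simp only [Finset.mem_insert, Finset.mem_singleton] at hi
        exact Finset.mem_range.2 (by omega)
      have := Finset.sum_le_sum_of_subset (f := fun i => m.choose i) hsub
      rwa [Finset.sum_pair (by omega)] at this
    · rw [Nat.choose_eq_zero_of_lt (by omega : m < j + 1), add_zero]
      exact Nat.choose_le_two_pow _ _

theorem covered_zero {K : Set (Fin 0 → ℝ)} (hK : K.Nonempty) : Covered 1 K := by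
  obtain ⟨x, hx⟩ := hK
  have hu : K = Set.univ := Set.eq_univ_of_forall fun y => by rwa [Subsingleton.elim y x]
  refine ⟨{0}, by simp, fun y _ => ?_⟩
  simp only [Finset.mem_singleton, Set.iUnion_iUnion_eq_left, hu, interior_univ]
  exact ⟨y, Set.mem_univ _, Subsingleton.elim _ _⟩

/-- Part 3 for the given `M`, `A`, `B`. -/
theorem sum_main {n : ℕ} {M : Set (Fin 2 → ℝ)} {A B : Set (Fin n → ℝ)}
    (hM : AntiBlockingBody M) (hA : AntiBlockingBody A) (hB : AntiBlockingBody B) :
    Body (Sum M A B) ∧ LocallyAntiBlocking (Sum M A B) ∧ Covered (2 ^ n) (Sum M A B) ∧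
      ((∃ c, M = Set.Icc 0 c) → ¬ Box (Sum M A B) → Covered (2 ^ n - 1) (Sum M A B)) ∧
      ((¬ ∃ c, M = Set.Icc 0 c) → Covered (2 * n.choose (n / 2)) (Sum M A B)) := by
  have h1 := msum_convex hM.corner hA.corner hB.corner
  have h2 := msum_compact hM.corner hA.corner hB.corner
  have h3 := msum_nonempty hM.corner hA.corner hB.corner
  have h4 := msum_lab hM.corner hA.corner hB.corner
  refine ⟨⟨h1, h2, h3⟩, h4, ?_, fun hr hbox => ?_, fun hr => ?_⟩
  · by_cases hr : ∃ c, M = Set.Icc 0 c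
    · exact (difference h1 h2 h4 h3 (msum_rect hM.corner hA.corner hB.corner hr)).1
    · have h5 := separated h1 h2 h4 (msum_sep hM.corner hA.corner hB.corner hr)
      rcases n with _ | m
      · exact covered_zero (h3.mono interior_subset)
      · refine h5.mono ?_
        rw [pow_succ, mul_comm]
        exact Nat.mul_le_mul_right _ (choose_succ_le _ _)
  · exact (difference h1 h2 h4 h3 (msum_rect hM.corner hA.corner hB.corner hr)).2 hbox
  · exact separated h1 h2 h4 (msum_sep hM.corner hA.corner hB.corner hr)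

/-- `M = [0,1]^2`. -/
theorem square_body : AntiBlockingBody (Set.Icc (0 : Fin 2 → ℝ) 1) := by
  refine ⟨⟨convex_Icc _ _, isCompact_Icc, ?_⟩, fun x hx i => hx.1 i, fun x hx y hy =>
    ⟨fun i => (hy i).1, fun i => (hy i).2.trans (hx.2 i)⟩⟩
  refine ⟨fun _ => 1 / 2, ?_⟩
  rw [mem_interior]
  refine ⟨Set.pi Set.univ fun _ => Set.Ioo 0 1, ?_, isOpen_set_pi Set.finite_univ
    fun i _ => isOpen_Ioo, fun i _ => ?_⟩
  · intro z hz
    exact ⟨fun i => (hz i (Set.mem_univ i)).1.le, fun i => (hz i (Set.mem_univ i)).2.le⟩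
  · constructor <;> norm_num

/-- The triangle. -/
def triangle : Set (Fin 2 → ℝ) := {p | 0 ≤ p 0 ∧ 0 ≤ p 1 ∧ p 0 + p 1 ≤ 1}

theorem triangle_body : AntiBlockingBody triangle := by
  refine ⟨⟨?_, ?_, ?_⟩, fun x hx i => ?_, fun x hx y hy => ⟨(hy 0).1, (hy 1).1, ?_⟩⟩
  · rintro x ⟨h1, h2, h3⟩ y ⟨h4, h5, h6⟩ a b ha hb hab
    show 0 ≤ a * x 0 + b * y 0 ∧ 0 ≤ a * x 1 + b * y 1 ∧ a * x 0 + b * y 0 + (a * x 1 + b * y 1) ≤ 1
    have e1 := mul_le_mul_of_nonneg_left h3 ha
    have e2 := mul_le_mul_of_nonneg_left h6 hb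
    have := mul_nonneg ha h1
    have := mul_nonneg ha h2
    have := mul_nonneg hb h4
    have := mul_nonneg hb h5
    refine ⟨?_, ?_, ?_⟩ <;> nlinarith
  · have hsub : triangle ⊆ Set.Icc (0 : Fin 2 → ℝ) 1 := by
      rintro x ⟨h1, h2, h3⟩
      refine ⟨fun i => ?_, fun i => ?_⟩
      · fin_cases i
        · exact h1
        · exact h2
      · fin_cases i
        · simp only [Pi.one_apply]; show x 0 ≤ 1; linarith
        · simp only [Pi.one_apply]; show x 1 ≤ 1; linarith
    refine isCompact_Icc.of_isClosed_subset ?_ hsub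
    have : triangle = {p | 0 ≤ p 0} ∩ ({p | 0 ≤ p 1} ∩ {p | p 0 + p 1 ≤ 1}) := by
      ext p; rfl
    rw [this]
    refine (isClosed_le continuous_const (continuous_apply 0)).inter
      ((isClosed_le continuous_const (continuous_apply 1)).inter
      (isClosed_le ((continuous_apply 0).add (continuous_apply 1)) continuous_const))
  · refine ⟨fun _ => 1 / 4, ?_⟩
    rw [mem_interior]
    refine ⟨Set.pi Set.univ fun _ => Set.Ioo 0 (1 / 2), ?_, isOpen_set_pi Set.finite_univ
      fun i _ => isOpen_Ioo, fun i _ => ?_⟩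
    · intro z hz
      have h0 := hz 0 (Set.mem_univ _)
      have h1 := hz 1 (Set.mem_univ _)
      exact ⟨h0.1.le, h1.1.le, by linarith [h0.2, h1.2]⟩
    · constructor <;> norm_num
  · fin_cases i
    · exact hx.1
    · exact hx.2.1
  · have := (hy 0).2
    have := (hy 1).2
    have := hx.2.2
    linarith

theorem triangle_not_rect : ¬ ∃ c, triangle = Set.Icc 0 c := by
  rintro ⟨c, hc⟩
  have h1 : (![1, 0] : Fin 2 → ℝ) ∈ triangle := by simp [triangle]
  have h2 : (![0, 1] : Fin 2 → ℝ) ∈ triangle := by simp [triangle]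
  rw [hc] at h1 h2
  have e1 : (1 : ℝ) ≤ c 0 := by simpa using h1.2 0
  have e2 : (1 : ℝ) ≤ c 1 := by simpa using h2.2 1
  have h3 : (1 : Fin 2 → ℝ) ∈ Set.Icc 0 c := by
    refine ⟨zero_le_one, fun i => ?_⟩
    fin_cases i
    · exact e1
    · exact e2
  rw [← hc] at h3
  have := h3.2.2
  simp only [Pi.one_apply] at this
  linarith

theorem sum_square {n : ℕ} {A B : Set (Fin n → ℝ)} (hA : AntiBlockingBody A)
    (hB : AntiBlockingBody B) : Sum (Set.Icc 0 1) A B = A - B := by
  have hs : ∀ {C : Set (Fin n → ℝ)}, AntiBlockingBody C → ∀ {s : ℝ}, 0 ≤ s → s ≤ 1 → ∀ {c},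
      c ∈ C → s • c ∈ C := by
    intro C hC s hs0 hs1 c hc
    refine hC.2.2 c hc _ fun i => ⟨mul_nonneg hs0 (hC.2.1 c hc i), ?_⟩
    simp only [Pi.smul_apply, smul_eq_mul]
    have := hC.2.1 c hc i
    nlinarith
  ext x
  constructor
  · rintro ⟨p, hp, a, ha, b, hb, rfl⟩
    exact Set.sub_mem_sub (hs hA (hp.1 0) (hp.2 0) ha) (hs hB (hp.1 1) (hp.2 1) hb)
  · rintro ⟨a, ha, b, hb, rfl⟩
    exact ⟨1, ⟨zero_le_one, le_refl _⟩, a, ha, b, hb, by simp⟩

theorem sum_triangle {n : ℕ} {A B : Set (Fin n → ℝ)} (hA : AntiBlockingBody A)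
    (hB : AntiBlockingBody B) : Sum triangle A B = convexHull ℝ (A ∪ -B) := by
  have hA0 := hA.corner.zero
  have hB0 := hB.corner.zero
  rw [hA.1.1.convexHull_union hB.1.1.neg ⟨0, hA0⟩ ⟨0, by simpa using hB0⟩]
  ext x
  rw [mem_convexJoin]
  constructor
  · rintro ⟨p, ⟨h1, h2, h3⟩, a, ha, b, hb, rfl⟩
    rcases h2.eq_or_lt with h | h
    · refine ⟨p 0 • a, ?_, 0, by simpa using hB0, ?_⟩
      · have := hA.1.1 ha hA0 h1 (by linarith : 0 ≤ 1 - p 0) (by ring)
        simpa using this
      · rw [← h, zero_smul, sub_zero]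
        exact left_mem_segment ℝ _ _
    · rcases (show p 1 ≤ 1 by linarith).eq_or_lt with h' | h'
      · have h0 : p 0 = 0 := by linarith
        refine ⟨0, hA0, -b, by simpa using hb, ?_⟩
        rw [h0, h', zero_smul, one_smul, zero_sub]
        exact right_mem_segment ℝ _ _
      · have h4 : 0 < 1 - p 1 := by linarith
        refine ⟨(p 0 / (1 - p 1)) • a, ?_, -b, by simpa using hb, 1 - p 1, p 1, h4.le, h.le,
          by ring, ?_⟩
        · have h5 : p 0 / (1 - p 1) ≤ 1 := by rw [div_le_one h4]; linarith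
          have := hA.1.1 ha hA0 (div_nonneg h1 h4.le) (by linarith : 0 ≤ 1 - p 0 / (1 - p 1))
            (by ring)
          simpa using this
        · rw [smul_smul, mul_div_cancel₀ _ h4.ne', smul_neg, sub_eq_add_neg]
  · rintro ⟨a, ha, b, hb, s, t, hs, ht, hst, rfl⟩
    refine ⟨![s, t], ⟨hs, ht, by simp [hst]⟩, a, ha, -b, hb, ?_⟩
    simp

/-- **Main theorem.** -/
theorem result (n : ℕ) :
    (∀ K : Set (Fin n → ℝ), Body K → LocallyAntiBlocking K →
      ((∀ x ∈ K, ∀ y ∈ K, x⁺ - y⁻ ∈ K) →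
        Covered (2 ^ n) K ∧ (¬ Box K → Covered (2 ^ n - 1) K)) ∧
      ((∀ x ∈ K, x⁺ ∈ interior K ∨ -x⁻ ∈ interior K) → Covered (2 * n.choose (n / 2)) K)) ∧
    (∀ A : Set (Fin n → ℝ), AntiBlockingBody A →
      Covered (2 ^ n) A ∧ (¬ Box A → Covered (2 ^ n - 1) A)) ∧
    (∀ A B : Set (Fin n → ℝ), AntiBlockingBody A → AntiBlockingBody B →
      ((¬ (Box A ∧ Box B) → Covered (2 ^ n - 1) (A - B)) ∧
        Covered (2 * n.choose (n / 2)) (convexHull ℝ (A ∪ -B)) ∧
        ∀ M : Set (Fin 2 → ℝ), AntiBlockingBody M →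
          Body (Sum M A B) ∧ Covered (2 ^ n) (Sum M A B) ∧
          ((¬ ∃ c, M = Set.Icc 0 c) → Covered (2 * n.choose (n / 2)) (Sum M A B)))) ∧
    (3 ≤ n → 2 * n.choose (n / 2) < 2 ^ n) := by
  refine ⟨fun K hK hL => ⟨fun hD => ?_, fun hs => ?_⟩, fun A hA => ?_, fun A B hA hB =>
    ⟨fun hbox => ?_, ?_, fun M hM => ?_⟩, fun hn => ?_⟩
  · exact difference hK.1 hK.2.1 hL hK.2.2 hD
  · exact separated hK.1 hK.2.1 hL hs
  · have hL : LAB A := by
      intro x hx y hy
      refine hA.2.2 x hx y fun i => ?_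
      have := hA.2.1 x hx i
      rcases hy i with h | h
      · exact h
      · exact ⟨this.trans h.1, h.2.trans this⟩
    refine difference hA.1.1 hA.1.2.1 hL hA.1.2.2 fun x hx y hy => ?_
    have e1 : x⁺ = x := posPart_eq_self.2 fun i => hA.2.1 x hx i
    have e2 : y⁻ = 0 := negPart_eq_zero.2 fun i => hA.2.1 y hy i
    rw [e1, e2, sub_zero]
    exact hx
  · have h := (sum_main square_body hA hB).2.2.2.1 ⟨1, rfl⟩
    rw [sum_square hA hB] at h
    refine h fun hb => hbox ?_
    obtain ⟨l, u, hlu⟩ := hb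
    have hA0 := hA.corner.zero
    have hB0 := hB.corner.zero
    have hAs : ∀ a ∈ A, a ≤ u := fun a ha => by
      have : a - 0 ∈ A - B := Set.sub_mem_sub ha hB0
      rw [hlu, sub_zero] at this
      exact this.2
    have hBs : ∀ b ∈ B, b ≤ -l := fun b hb => by
      have : 0 - b ∈ A - B := Set.sub_mem_sub hA0 hb
      rw [hlu, zero_sub] at this
      exact le_neg.1 this.1
    have hle : l ≤ u := by
      have : (0 : Fin n → ℝ) - 0 ∈ A - B := Set.sub_mem_sub hA0 hB0
      rw [hlu] at this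
      exact this.1.trans this.2
    have huA : u ∈ A := by
      have : u ∈ A - B := by rw [hlu]; exact ⟨hle, le_refl _⟩
      obtain ⟨a, ha, b, hb, hab⟩ := this
      have h1 : a - b = u := hab
      have h2 : a = u := by
        apply le_antisymm (hAs a ha)
        intro i
        have h3 := congrFun h1 i
        have h4 := hB.2.1 b hb i
        simp only [Pi.sub_apply] at h3
        linarith
      rw [← h2]; exact ha
    have hlB : -l ∈ B := by
      have : l ∈ A - B := by rw [hlu]; exact ⟨le_refl _, hle⟩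
      obtain ⟨a, ha, b, hb, hab⟩ := this
      have h1 : a - b = l := hab
      have h2 : b = -l := by
        apply le_antisymm (hBs b hb)
        intro i
        have h3 := congrFun h1 i
        have h4 := hA.2.1 a ha i
        simp only [Pi.sub_apply, Pi.neg_apply] at h3 ⊢
        linarith
      rw [← h2]; exact hb
    refine ⟨⟨0, u, ?_⟩, ⟨0, -l, ?_⟩⟩
    · ext z
      constructor
      · intro hz
        exact ⟨fun i => hA.2.1 z hz i, hAs z hz⟩
      · rintro ⟨h1, h2⟩
        exact hA.2.2 u huA z fun i => ⟨h1 i, h2 i⟩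
    · ext z
      constructor
      · intro hz
        exact ⟨fun i => hB.2.1 z hz i, hBs z hz⟩
      · rintro ⟨h1, h2⟩
        exact hB.2.2 _ hlB z fun i => ⟨h1 i, h2 i⟩
  · have h := (sum_main triangle_body hA hB).2.2.2.2 triangle_not_rect
    rw [sum_triangle hA hB] at h
    exact h
  · have h := sum_main hM hA hB
    exact ⟨h.1, h.2.2.1, h.2.2.2.2⟩
  · obtain ⟨m, rfl⟩ : ∃ m, n = m + 3 := ⟨n - 3, by omega⟩
    set k := (m + 3) / 2 with hk
    have hk1 : 1 ≤ k := by omega
    have hk2 : k ≤ m + 1 := by omega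
    obtain ⟨j, hj⟩ : ∃ j, k = j + 1 := ⟨k - 1, by omega⟩
    have e : (m + 2 + 1).choose (j + 1) = (m + 2).choose j + (m + 2).choose (j + 1) :=
      Nat.choose_succ_succ _ _
    have hsum : (m + 2).choose j + (m + 2).choose (j + 1) < 2 ^ (m + 2) := by
      rw [← Nat.sum_range_choose (m + 2), ← Finset.sum_pair (show j ≠ j + 1 by omega)
        (f := fun i => (m + 2).choose i)]
      refine Finset.sum_lt_sum_of_subset (i := m + 2) ?_ ?_ ?_ ?_ ?_
      · intro i hi
        simp only [Finset.mem_insert, Finset.mem_singleton] at hi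
        exact Finset.mem_range.2 (by omega)
      · exact Finset.mem_range.2 (by omega)
      · simp only [Finset.mem_insert, Finset.mem_singleton]
        omega
      · simp
      · intro i _ _
        exact Nat.zero_le _
    rw [hj, show m + 3 = m + 2 + 1 from rfl, e, pow_succ (2 : ℕ) (m + 2)]
    omega

end Pool.Agent.Results.MP_eba1ef_gt.AntiBlockingDifferences
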