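import Mathlib
import Pool.Agent.Q217.TN.Irr

set_option autoImplicit false

/-!
# MP_eba1ef_gt: bodies with irreducible symmetries, rotation invariant bodies of tensors

**Part 1.** Let `K` be a convex body in a Euclidean space `E` of dimension `d`, `K ⊆ -a K` (`a = 1`
if `K` is centrally symmetric). Suppose that `K` is invariant under the one-parameter groups of a
Lie algebra of skew-symmetric operators which acts irreducibly on `E`; the Lie algebra need not be
semisimple and no bound for its Killing form is required. Let `X_i` be an orthonormal basis of the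
Lie algebra for some invariant inner product, `q = -(1/d) ∑ tr X_i²` the Casimir eigenvalue, `κ` the
largest norm of an operator `∑ b_i X_i` with `∑ b_i² = 1`, and `s = q / (480 κ² (1 + a)²)`. Then
`c(K) ≤ 1 + 13 d log(2d²+2d+1) 2^d e^(-s)`, and `c(K) < 2^d` (Hadwiger's covering conjecture, with
the strict inequality) if `s ≥ 5 + 2 log d`.

**Part 2.** Let `K` be any convex body of real `n_1 × ... × n_r` tensors such that `K` is invariant
under the rotations `SO(n_t)` of each index `t`, where some `n_t` is at least three; no symmetry with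
respect to a point is assumed. Let `d = ∏ n_t` be the dimension and `m` the mean of the numbers
`n_t`. Then the same bounds hold with `s = (m - 1) / 7680`, and with `s = (m - 1) / 1920` if
`K = -K`. So `c(K) < 2^d`, `d = n^r`, for all these bodies of tensors of order `r` over `ℝ^n` when
`n - 1 ≥ 7680 (5 + 2 r log n)`: the order of the tensors may be proportional to `n / log n`, the
dimension is then exponential in `n`. Examples are the unit balls of the injective and of the
projective tensor norm of `ℝ^n ⊗ ... ⊗ ℝ^n` and of all other norms which are invariant under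
the rotations of the factors.

The theorem `CompactLieSymmetries` of the starting files has semisimple algebras and a lower bound
of the Killing form in the place of the Casimir eigenvalue. The Killing form depends on the algebra
only, while the Casimir eigenvalue grows with the representation; so it gives Part 2 for
`r ≤ c √(n / log n)` only.

Proof. By Schur's lemma the Casimir operator `-∑ X_i²` is a scalar, and its trace gives the scalar.
The covering bound for a scalar Casimir operator is `Pool.Agent.Y368.Lie.cover_scalar'` of the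
starting library. In Part 2 the rotations of different indices commute, so the one-parameter groups
act by products of rotations, and the norms of the combinations with coefficients of square sum one
are at most `√(2 r)`, by Cauchy-Schwarz; a body which is invariant under `SO(n)` in one index,
`n ≥ 3`, is contained in `-n/(n-2) K`.
-/

namespace Pool.Agent.Results.MP_eba1ef_gt.CasimirSymmetries

open scoped InnerProductSpace
open Module

/-- The bounds of the theorem, in terms of the parameter `s`: `K` is covered by at most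
`1 + 13 d log(2d²+2d+1) 2^d e^(-s)` translates of its interior, and by less than `2^d` if
`s ≥ 5 + 2 log d`, where `d` is the dimension. -/
def FewTranslates {E : Type*} [NormedAddCommGroup E] [InnerProductSpace ℝ E] (K : Set E)
    (s : ℝ) : Prop :=
  ∃ T : Finset E, K ⊆ ⋃ t ∈ T, (fun x => t + x) '' interior K ∧
    (T.card : ℝ) ≤ 1 + 13 * finrank ℝ E * Real.log (2 * finrank ℝ E ^ 2 + 2 * finrank ℝ E + 1)
      * 2 ^ finrank ℝ E * Real.exp (-s) ∧
    (5 + 2 * Real.log (finrank ℝ E) ≤ s → T.card < 2 ^ finrank ℝ E)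

/-- The real `n_1 × ... × n_r` tensors. -/
abbrev Tensor {r : ℕ} (n : Fin r → ℕ) := EuclideanSpace ℝ ((t : Fin r) → Fin (n t))

/-- The tensor `x` multiplied by the matrix `U` in the index `t`. -/
noncomputable def rotate {r : ℕ} {n : Fin r → ℕ} (t : Fin r)
    (U : Matrix (Fin (n t)) (Fin (n t)) ℝ) (x : Tensor n) : Tensor n :=
  WithLp.toLp 2 fun p => ∑ j, U (p t) j * x (Function.update p t j)

theorem FewTranslates.mono {E : Type*} [NormedAddCommGroup E] [InnerProductSpace ℝ E] {K : Set E}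
    {s s' : ℝ} (h : FewTranslates K s) (hs : s' ≤ s) : FewTranslates K s' := by
  obtain ⟨T, h1, h2, h3⟩ := h
  refine ⟨T, h1, h2.trans ?_, fun h => h3 (h.trans hs)⟩
  have hlog : 0 ≤ Real.log (2 * (finrank ℝ E : ℝ) ^ 2 + 2 * finrank ℝ E + 1) := by
    apply Real.log_nonneg
    have : (0 : ℝ) ≤ finrank ℝ E := Nat.cast_nonneg _
    nlinarith
  gcongr

/-- The operators `X i` are skew-symmetric, and an orthonormal basis (with respect to an invariant
inner product; the structure constants are `c`) of a Lie algebra which acts irreducibly and not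
trivially; `κ` bounds the norms of the operators `∑ b_i X_i` with `∑ b_i² ≤ 1`. -/
def IsIrreducible {E : Type*} [NormedAddCommGroup E] [InnerProductSpace ℝ E] {ι : Type}
    [Fintype ι] (X : ι → E →L[ℝ] E) (c : ι → ι → ι → ℝ) (κ : ℝ) : Prop :=
  (∀ i x y, ⟪X i x, y⟫_ℝ = -⟪x, X i y⟫_ℝ) ∧
  (∀ i j x, X i (X j x) - X j (X i x) = ∑ k, c i j k • X k x) ∧
  (∀ i j k, c i j k = -c k j i) ∧
  (∀ S : Submodule ℝ E, (∀ i, ∀ x ∈ S, X i x ∈ S) → S = ⊥ ∨ S = ⊤) ∧
  (∃ i, X i ≠ 0) ∧
  (∀ b : ι → ℝ, ∑ i, b i ^ 2 ≤ 1 → ∀ x, ‖∑ i, b i • X i x‖ ≤ κ * ‖x‖)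

/-- The Casimir eigenvalue `-(1/d) ∑ tr X_i²`. -/
noncomputable def casimirValue {E : Type*} [NormedAddCommGroup E] [InnerProductSpace ℝ E]
    {ι : Type} [Fintype ι] (X : ι → E →L[ℝ] E) : ℝ :=
  -(∑ i, LinearMap.trace ℝ E ((X i : E →ₗ[ℝ] E) ∘ₗ (X i : E →ₗ[ℝ] E))) / finrank ℝ E

theorem irreducible (E : Type) [NormedAddCommGroup E] [InnerProductSpace ℝ E] [FiniteDimensional ℝ E]
    (K : Set E) (a : ℝ) (hd : 2 ≤ finrank ℝ E) (hK : Convex ℝ K) (hKc : IsCompact K)
    (hKi : (interior K).Nonempty) (ha : 0 < a) (hKa : ∀ x ∈ K, -(a⁻¹ • x) ∈ K)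
    (ι : Type) [Fintype ι] (X : ι → E →L[ℝ] E) (c : ι → ι → ι → ℝ) (κ : ℝ) (hκ : 0 < κ)
    (hX : IsIrreducible X c κ)
    (hinv : ∀ b : ι → ℝ, ∀ x ∈ K, NormedSpace.exp (∑ i, b i • X i) x ∈ K) :
    FewTranslates K (casimirValue X / (480 * κ ^ 2 * (1 + a) ^ 2)) := by
  obtain ⟨hX, hc, hanti, hirr, hne, hn⟩ := hX
  obtain ⟨q, hq, hcas, hqv⟩ := Q217.TN.casimir_scalar X hX c hc hanti hd hirr hne
  let _ : MeasurableSpace E := borel E
  have _ : BorelSpace E := ⟨rfl⟩
  obtain ⟨T, h1, h2⟩ := Y368.Lie.cover_scalar' X hX q hq hcas κ hκ hn K hd hK hKc hKi a ha hKa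
    hinv
  have e : casimirValue X = q := hqv.symm
  rw [e]
  exact ⟨T, h1, h2, fun hs => Y368.Lie.strict _ hd _ _ h2 hs⟩

theorem tensors :
    (∀ (r : ℕ) (n : Fin r → ℕ), (∀ t, 1 ≤ n t) → (∃ t, 3 ≤ n t) → ∀ K : Set (Tensor n),
      Convex ℝ K → IsCompact K → (interior K).Nonempty →
      (∀ (t : Fin r) (U : Matrix.specialOrthogonalGroup (Fin (n t)) ℝ), ∀ x ∈ K,
        rotate t (U : Matrix (Fin (n t)) (Fin (n t)) ℝ) x ∈ K) →
      FewTranslates K ((∑ t, ((n t : ℝ) - 1)) / (7680 * r)) ∧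
      ((∀ x ∈ K, -x ∈ K) → FewTranslates K ((∑ t, ((n t : ℝ) - 1)) / (1920 * r)))) ∧
    -- tensors of order `r` over `ℝ^n`
    (∀ r n : ℕ, 1 ≤ r → 7680 * (5 + 2 * r * Real.log n) ≤ (n : ℝ) - 1 →
      ∀ K : Set (Tensor fun _ : Fin r => n), Convex ℝ K → IsCompact K → (interior K).Nonempty →
      (∀ (t : Fin r) (U : Matrix.specialOrthogonalGroup (Fin n) ℝ), ∀ x ∈ K,
        rotate t (U : Matrix (Fin n) (Fin n) ℝ) x ∈ K) →
      ∃ T : Finset (Tensor fun _ : Fin r => n), K ⊆ ⋃ t ∈ T, (fun x => t + x) '' interior K ∧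
        T.card < 2 ^ (n ^ r)) := by
  have main2 : ∀ (r : ℕ) (n : Fin r → ℕ), (∀ t, 1 ≤ n t) → (∃ t, 3 ≤ n t) →
      ∀ K : Set (Tensor n), Convex ℝ K → IsCompact K → (interior K).Nonempty →
      (∀ (t : Fin r) (U : Matrix.specialOrthogonalGroup (Fin (n t)) ℝ), ∀ x ∈ K,
        rotate t (U : Matrix (Fin (n t)) (Fin (n t)) ℝ) x ∈ K) →
      FewTranslates K ((∑ t, ((n t : ℝ) - 1)) / (7680 * r)) ∧
      ((∀ x ∈ K, -x ∈ K) → FewTranslates K ((∑ t, ((n t : ℝ) - 1)) / (1920 * r))) := by
    intro r n hn h3 K hK hKc hKi hinv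
    have hd := Q217.TN.two_le_finrank hn h3
    have hr : (0 : ℝ) < r := by
      obtain ⟨t, -⟩ := h3
      exact_mod_cast t.pos
    have hsum : 0 ≤ ∑ t, ((n t : ℝ) - 1) := Finset.sum_nonneg fun t _ => by
      have : (1 : ℝ) ≤ n t := by exact_mod_cast hn t
      linarith
    have key : ∀ a : ℝ, 0 < a → (∀ x ∈ K, -(a⁻¹ • x) ∈ K) →
        FewTranslates K ((∑ t, ((n t : ℝ) - 1)) / (480 * r * (1 + a) ^ 2)) := by
      intro a ha hKa
      obtain ⟨T, h1, h2⟩ := Q217.TN.cover_ten hn h3 K hK hKc hKi hinv a ha hKa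
      exact ⟨T, h1, h2, fun hs => Y368.Lie.strict _ hd _ _ h2 hs⟩
    constructor
    · obtain ⟨t, ht⟩ := h3
      have ht' : (3 : ℝ) ≤ n t := by exact_mod_cast ht
      refine (key ((n t : ℝ) / (n t - 2)) (div_pos (by linarith) (by linarith))
        (Q217.TN.almost_symm_act t ht K hK (hinv t))).mono ?_
      have h4 : (n t : ℝ) / (n t - 2) ≤ 3 := by
        rw [div_le_iff₀ (by linarith)]
        linarith
      have h5 : 0 < (n t : ℝ) / (n t - 2) := div_pos (by linarith) (by linarith)
      apply div_le_div_of_nonneg_left hsum (by positivity)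
      calc 480 * (r : ℝ) * (1 + (n t : ℝ) / (n t - 2)) ^ 2
          ≤ 480 * (r : ℝ) * (1 + 3) ^ 2 := by gcongr
        _ = 7680 * (r : ℝ) := by ring
    · intro hs
      have h := key 1 one_pos (fun x hx => by rw [inv_one, one_smul]; exact hs x hx)
      refine h.mono (le_of_eq ?_)
      congr 1
      ring
  refine ⟨main2, ?_⟩
  · intro r n hr hn K hK hKc hKi hinv
    have hr' : (1 : ℝ) ≤ r := by exact_mod_cast hr
    have hr0 : (0 : ℝ) < r := by linarith
    have hlog : 0 ≤ Real.log n := Real.log_natCast_nonneg n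
    have hn3 : 3 ≤ n := by
      have h1 : 0 ≤ 2 * (r : ℝ) * Real.log n := by positivity
      have : (3 : ℝ) ≤ n := by linarith
      exact_mod_cast this
    obtain ⟨⟨T, h1, -, h3⟩, -⟩ := main2 r (fun _ => n) (fun _ => by omega) ⟨⟨0, hr⟩, hn3⟩ K hK hKc
      hKi hinv
    have hfr : finrank ℝ (Tensor fun _ : Fin r => n) = n ^ r := by
      have := Q217.TN.finrank_ten (fun _ : Fin r => n)
      rw [this]
      simp
    rw [hfr] at h3
    refine ⟨T, h1, h3 ?_⟩
    have e1 : (∑ _t : Fin r, ((n : ℝ) - 1)) / (7680 * r) = (n - 1) / 7680 := by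
      rw [Finset.sum_const, Finset.card_univ, Fintype.card_fin, nsmul_eq_mul]
      field_simp
    rw [e1, le_div_iff₀ (by norm_num)]
    push_cast
    rw [Real.log_pow]
    linarith

/-- **Theorem.** Hadwiger's bounds for the convex bodies with irreducible symmetries (Part 1) and for
the rotation invariant convex bodies of tensors (Part 2). -/
theorem result :
    -- Part 1
    (∀ (E : Type) [NormedAddCommGroup E] [InnerProductSpace ℝ E] [FiniteDimensional ℝ E]
      (K : Set E) (a : ℝ), 2 ≤ finrank ℝ E → Convex ℝ K → IsCompact K → (interior K).Nonempty →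
      0 < a → (∀ x ∈ K, -(a⁻¹ • x) ∈ K) →
      ∀ (ι : Type) [Fintype ι] (X : ι → E →L[ℝ] E) (c : ι → ι → ι → ℝ) (κ : ℝ), 0 < κ →
      IsIrreducible X c κ →
      (∀ b : ι → ℝ, ∀ x ∈ K, NormedSpace.exp (∑ i, b i • X i) x ∈ K) →
      FewTranslates K (casimirValue X / (480 * κ ^ 2 * (1 + a) ^ 2))) ∧
    -- Part 2
    (∀ (r : ℕ) (n : Fin r → ℕ), (∀ t, 1 ≤ n t) → (∃ t, 3 ≤ n t) → ∀ K : Set (Tensor n),
      Convex ℝ K → IsCompact K → (interior K).Nonempty →
      (∀ (t : Fin r) (U : Matrix.specialOrthogonalGroup (Fin (n t)) ℝ), ∀ x ∈ K,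
        rotate t (U : Matrix (Fin (n t)) (Fin (n t)) ℝ) x ∈ K) →
      FewTranslates K ((∑ t, ((n t : ℝ) - 1)) / (7680 * r)) ∧
      ((∀ x ∈ K, -x ∈ K) → FewTranslates K ((∑ t, ((n t : ℝ) - 1)) / (1920 * r)))) ∧
    -- tensors of order `r` over `ℝ^n`
    (∀ r n : ℕ, 1 ≤ r → 7680 * (5 + 2 * r * Real.log n) ≤ (n : ℝ) - 1 →
      ∀ K : Set (Tensor fun _ : Fin r => n), Convex ℝ K → IsCompact K → (interior K).Nonempty →
      (∀ (t : Fin r) (U : Matrix.specialOrthogonalGroup (Fin n) ℝ), ∀ x ∈ K,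
        rotate t (U : Matrix (Fin n) (Fin n) ℝ) x ∈ K) →
      ∃ T : Finset (Tensor fun _ : Fin r => n), K ⊆ ⋃ t ∈ T, (fun x => t + x) '' interior K ∧
        T.card < 2 ^ (n ^ r)) :=
  ⟨fun E _ _ _ K a hd hK hKc hKi ha hKa ι _ X c κ hκ hX hinv =>
    irreducible E K a hd hK hKc hKi ha hKa ι X c κ hκ hX hinv, tensors⟩

end Pool.Agent.Results.MP_eba1ef_gt.CasimirSymmetries
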