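import Mathlib
import Pool.Agent.TH438.Hull.Flats
import Pool.Agent.H2R2.Frac.Primal
import Pool.Agent.Results.MP_eba1ef_gt.AllConvexBodies
import Pool.Agent.Results.MP_eba1ef_gt.ThirteenInSpace

set_option autoImplicit false

/-!
# MP_eba1ef_gt: convex bodies whose extreme points lie in a few flats or lower-dimensional pieces

For a compact convex set `X` let `c(X)` be the least number of translates of the relative interior
of `X` that cover `X`. Let `K` be a convex body in `ℝ^d`.

1. If `A_1, ..., A_m` are compact convex subsets of `K`, of any dimensions, containing all extreme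
   points of `K` (that is, `K` is the convex hull of the union of the `A_j`), then
   `c(K) ≤ N_1 + ... + N_m`, where `N_j = c(A_j)`, or `N_j = dim A_j + 1` if `A_j` is smooth in its
   affine hull.
2. If the extreme points of `K` lie in finitely many flats of dimensions at most two with
   `∑ 2 ^ dim ≤ 2 ^ d` (for example in `2 ^ (d - 2)` planes; for `d = 3` in two planes), then
   `c(K) ≤ 2 ^ d`, and `c(K) < 2 ^ d` unless `K` is a parallelotope.
3. If they lie in flats of any dimensions with `∑ β(dim) ≤ 2 ^ d`, then `c(K) ≤ 2 ^ d`, where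
   `β(k) = 2 ^ k` for `k ≤ 2`, `β(3) = 13` and `β(k) = 3 * 2 ^ k * k * log (2 k ^ 2 + 2 k + 1)` for
   `k ≥ 4`. For `d = 4`: in a hyperplane and three further points.
4. If the conjecture (with the equality case) is true in the dimensions `3, ..., d - 1` and the
   extreme points of `K` lie in flats of dimensions less than `d` with `∑ 2 ^ dim ≤ 2 ^ d` (for
   example in two hyperplanes), then it is true for `K`. So the extreme points of a
   counterexample of least dimension do not lie in the union of two hyperplanes.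

The proof. Directions illuminating `A_j` in its affine hull, slightly tilted towards an interior
point of `K`, illuminate all points of `A_j` in `K`, and a direction which illuminates one point of
a convex combination with a positive coefficient illuminates the combination. In the equality case
the pieces are parallelotopes (Levi's theorem in the plane), so `K` has at most `2 ^ d` extreme
points, no two of which can be illuminated by the same direction; then the fractional covering
number of `K` is `2 ^ d` too, and `K` is a parallelotope.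
-/

namespace Pool.Agent.Results.MP_eba1ef_gt.ExtremePointsInFlats

open Set Topology Module
open scoped InnerProductSpace
open Pool.Agent.H843R3.Had2 Pool.Agent.W677.Shadow
open Pool.Agent.TH438.Hull

/-- The Euclidean space `ℝ^d`. -/
abbrev Eu (d : ℕ) : Type := EuclideanSpace ℝ (Fin d)

/-- `K` is a convex body: convex, compact, with nonempty interior. -/
def IsConvexBody {d : ℕ} (K : Set (Eu d)) : Prop :=
  Convex ℝ K ∧ IsCompact K ∧ (interior K).Nonempty

/-- `K` is covered by at most `N` translates of its interior. -/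
def CoveredBy {d : ℕ} (K : Set (Eu d)) (N : ℕ) : Prop :=
  ∃ T : Finset (Eu d), T.card ≤ N ∧ K ⊆ ⋃ t ∈ T, (fun x => t + x) '' interior K

/-- `K` is a parallelotope: the sum of a point and of `d` linearly independent segments. -/
def IsParallelotope {d : ℕ} (K : Set (Eu d)) : Prop :=
  ∃ (p : Eu d) (v : Fin d → Eu d), LinearIndependent ℝ v ∧
    K = {x | ∃ a : Fin d → ℝ, (∀ i, 0 ≤ a i ∧ a i ≤ 1) ∧ x = p + ∑ i, a i • v i}

/-- Both parts of the conjecture for `K`: `K` is covered by `2 ^ d` translates of its interior, and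
by `2 ^ d - 1` translates unless it is a parallelotope. -/
def BothParts {d : ℕ} (K : Set (Eu d)) : Prop :=
  CoveredBy K (2 ^ d) ∧ (¬ CoveredBy K (2 ^ d - 1) → IsParallelotope K)

/-- Both parts of the conjecture in dimension `d`. -/
def ConjectureInDimension (d : ℕ) : Prop := ∀ K : Set (Eu d), IsConvexBody K → BothParts K

/-- `A` is covered by at most `N` translates of its relative interior. -/
def RelCoveredBy {d : ℕ} (A : Set (Eu d)) (N : ℕ) : Prop :=
  ∃ T : Finset (Eu d), T.card ≤ N ∧ A ⊆ ⋃ t ∈ T, (fun x => t + x) '' intrinsicInterior ℝ A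

/-- The dimension of (the affine hull of) `A`. -/
noncomputable def dim {d : ℕ} (A : Set (Eu d)) : ℕ := finrank ℝ (vectorSpan ℝ A)

/-- `A` is smooth in its affine hull: any two nonzero normal vectors at the same point, taken in the
linear span of `A - A`, are positive multiples of each other. -/
def Smooth {d : ℕ} (A : Set (Eu d)) : Prop :=
  ∀ x ∈ A, ∀ u ∈ vectorSpan ℝ A, ∀ v ∈ vectorSpan ℝ A, u ≠ 0 → v ≠ 0 →
    (∀ y ∈ A, ⟪u, y⟫_ℝ ≤ ⟪u, x⟫_ℝ) → (∀ y ∈ A, ⟪v, y⟫_ℝ ≤ ⟪v, x⟫_ℝ) → ∃ c : ℝ, 0 < c ∧ v = c • u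

/-- `A` is covered by `N` translates of its relative interior, or `A` is smooth and
`N = dim A + 1`. -/
def PieceNumber {d : ℕ} (A : Set (Eu d)) (N : ℕ) : Prop :=
  RelCoveredBy A N ∨ (Smooth A ∧ N = dim A + 1)

/-- All extreme points of `K` lie in the union of the sets `X j`. -/
def ExtremePointsIn {d m : ℕ} (K : Set (Eu d)) (X : Fin m → Set (Eu d)) : Prop :=
  K.extremePoints ℝ ⊆ ⋃ j, X j

/-- The bound by the sum of the numbers of the pieces. -/
def SumBound {d : ℕ} (K : Set (Eu d)) (m : ℕ) : Prop :=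
  ∀ (A : Fin m → Set (Eu d)) (N : Fin m → ℕ),
    (∀ j, Convex ℝ (A j) ∧ IsCompact (A j) ∧ A j ⊆ K) → ExtremePointsIn K A →
    (∀ j, PieceNumber (A j) (N j)) → CoveredBy K (∑ j, N j)

/-- The dimension of a flat. -/
noncomputable def flatDim {d : ℕ} (E : AffineSubspace ℝ (Eu d)) : ℕ := finrank ℝ E.direction

/-- The function `β`. -/
noncomputable def beta (k : ℕ) : ℝ :=
  if k ≤ 2 then 2 ^ k else if k = 3 then 13 else
    3 * 2 ^ k * (k * Real.log (2 * k ^ 2 + 2 * k + 1))

/-- The conjecture is true in the dimensions `3, ..., d - 1`. -/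
def ConjectureBelow (d : ℕ) : Prop := ∀ k, 3 ≤ k → k < d → ConjectureInDimension k

/-- Flats of dimensions at most two with `∑ 2 ^ dim ≤ 2 ^ d`. -/
def LowFlats {d m : ℕ} (E : Fin m → AffineSubspace ℝ (Eu d)) : Prop :=
  (∀ j, flatDim (E j) ≤ 2) ∧ ∑ j, 2 ^ flatDim (E j) ≤ 2 ^ d

/-- Flats with `∑ β(dim) ≤ 2 ^ d`. -/
def BetaFlats {d m : ℕ} (E : Fin m → AffineSubspace ℝ (Eu d)) : Prop :=
  ∑ j, beta (flatDim (E j)) ≤ 2 ^ d

/-- Flats of dimensions less than `d` with `∑ 2 ^ dim ≤ 2 ^ d`. -/
def ProperFlats {d m : ℕ} (E : Fin m → AffineSubspace ℝ (Eu d)) : Prop :=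
  (∀ j, flatDim (E j) < d) ∧ ∑ j, 2 ^ flatDim (E j) ≤ 2 ^ d

/-- The extreme points of `K` are in the union of the flats `E j`. -/
def InFlats {d m : ℕ} (K : Set (Eu d)) (E : Fin m → AffineSubspace ℝ (Eu d)) : Prop :=
  ExtremePointsIn K (fun j => (E j : Set (Eu d)))

/-- The extreme points of `K` are in the union of two proper flats. -/
def InTwoHyperplanes {d : ℕ} (K : Set (Eu d)) : Prop :=
  ∃ E : Fin 2 → AffineSubspace ℝ (Eu d), (∀ j, E j ≠ ⊤) ∧ InFlats K E

/-- The statements on flats containing the extreme points. -/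
def FlatBounds {d : ℕ} (K : Set (Eu d)) (m : ℕ) : Prop :=
  ∀ E : Fin m → AffineSubspace ℝ (Eu d), InFlats K E →
    (LowFlats E → BothParts K) ∧ (BetaFlats E → CoveredBy K (2 ^ d)) ∧
    (ConjectureBelow d → ProperFlats E → BothParts K)

theorem beta_mono {a b : ℕ} (h : a ≤ b) : beta a ≤ beta b := by
  have hlog : ∀ k : ℕ, 3 ≤ k → 1 ≤ Real.log (2 * (k : ℝ) ^ 2 + 2 * k + 1) := by
    intro k hk
    have hk' : (3 : ℝ) ≤ k := by exact_mod_cast hk
    rw [Real.le_log_iff_exp_le (by positivity)]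
    have := Real.exp_one_lt_d9
    nlinarith
  have hbig : ∀ k : ℕ, 4 ≤ k → (13 : ℝ) ≤ 3 * 2 ^ k * (k * Real.log (2 * k ^ 2 + 2 * k + 1)) := by
    intro k hk
    have h3 := hlog k (by omega)
    have hb : (4 : ℝ) ≤ k := by exact_mod_cast hk
    have h4 : (2 : ℝ) ^ 4 ≤ 2 ^ k := pow_le_pow_right₀ (by norm_num) hk
    have h6 : (1 : ℝ) ≤ k * Real.log (2 * (k : ℝ) ^ 2 + 2 * k + 1) := by nlinarith
    nlinarith
  have hsmall : ∀ k : ℕ, k ≤ 2 → (2 : ℝ) ^ k ≤ 4 := by
    intro k hk
    have : (2 : ℝ) ^ k ≤ 2 ^ 2 := pow_le_pow_right₀ (by norm_num) hk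
    linarith
  unfold beta
  split_ifs with h1 h2 h3 h4 h5 h6 h7
  · exact pow_le_pow_right₀ (by norm_num) h
  · linarith [hsmall a h1]
  · linarith [hsmall a h1, hbig b (by omega)]
  · omega
  · exact le_rfl
  · linarith [hbig b (by omega)]
  · omega
  · omega
  · have h3 := hlog a (by omega)
    have ha : (a : ℝ) ≤ b := by exact_mod_cast h
    have h4 : (2 : ℝ) ^ a ≤ 2 ^ b := pow_le_pow_right₀ (by norm_num) h
    have h5 : Real.log (2 * (a : ℝ) ^ 2 + 2 * a + 1) ≤ Real.log (2 * (b : ℝ) ^ 2 + 2 * b + 1) := by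
      apply Real.log_le_log (by positivity)
      gcongr
    gcongr

/-- directions give coverings -/
theorem cov_of_dirs {d : ℕ} {K : Set (Eu d)} (hK : IsConvexBody K) {N : ℕ}
    (h : ∃ D : Finset (Eu d), D.card ≤ N ∧ ∀ x ∈ K, ∃ v ∈ D, Co K x v) : CoveredBy K N := by
  obtain ⟨D, hD, h1⟩ := h
  obtain ⟨T, hT, h2⟩ := cover_of_dirs hK.1 hK.2.1 D h1
  exact ⟨T, hT.trans hD, h2⟩

/-- Directions for the points of a finite set containing the extreme points. -/
theorem dirs_of_points {n : ℕ} {K : Set (Eu n)} (hK : IsConvexBody K) (Z : Finset (Eu n))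
    (hZK : (Z : Set (Eu n)) ⊆ K) (hext : K.extremePoints ℝ ⊆ Z) (D : Finset (Eu n))
    (hD : ∀ z ∈ Z, ∃ v ∈ D, Co K z v) : ∀ x ∈ K, ∃ v ∈ D, Co K x v := by
  classical
  intro x hx
  obtain ⟨⟨z, hz⟩, y, hy, y', hy', l, hl0, hl1, rfl⟩ := repr_of_extreme (ι := Z) hK.1 hK.2.1
    (fun z => {(z : Eu n)}) (fun z => convex_singleton _) (fun z => isCompact_singleton)
    (fun z => singleton_nonempty _) (fun z => singleton_subset_iff.2 (hZK z.2))
    (fun x hx => mem_iUnion.2 ⟨⟨x, hext hx⟩, rfl⟩) x hx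
  rw [mem_singleton_iff] at hy
  subst hy
  obtain ⟨v, hv, h⟩ := hD _ hz
  exact ⟨v, hv, Co.combo hK.1 h hy' hl0 hl1⟩

/-- **Equality.** A body with at most `2 ^ d` extreme points which cannot be illuminated by fewer
than `2 ^ d` directions is a parallelotope. -/
theorem para_of_points {n : ℕ} (hn : 1 ≤ n) {K : Set (Eu n)} (hK : IsConvexBody K)
    (Z : Finset (Eu n)) (hZ : Z.card ≤ 2 ^ n) (hext : K.extremePoints ℝ ⊆ Z)
    (hno : ¬ ∃ D : Finset (Eu n), D.card ≤ 2 ^ n - 1 ∧ ∀ x ∈ K, ∃ v ∈ D, Co K x v) :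
    IsParallelotope K := by
  classical
  obtain ⟨p, hp⟩ := hK.2.2
  -- the extreme points
  set X : Finset (Eu n) := Z.filter (fun z => z ∈ K.extremePoints ℝ) with hX
  have hXcard : X.card ≤ 2 ^ n := (Finset.card_filter_le _ _).trans hZ
  have hXext : K.extremePoints ℝ ⊆ X := fun x hx => Finset.mem_filter.2 ⟨hext hx, hx⟩
  have hXP : (X : Set (Eu n)) ⊆ K := fun x hx => (Finset.mem_filter.1 hx).2.1
  have hpow : 0 < 2 ^ n := by positivity
  have hself : ∀ z ∈ K, Co K z (p - z) := by
    intro z hz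
    have h1 := Co.of (hK.1) (Cn.zero hz) hp
    simpa using h1
  -- exactly `2 ^ n` of them
  have hcard : X.card = 2 ^ n := by
    by_contra hne
    refine hno ⟨X.image (fun z => p - z), Finset.card_image_le.trans (by omega), ?_⟩
    exact dirs_of_points hK X hXP hXext _ fun z hz =>
      ⟨p - z, Finset.mem_image_of_mem _ hz, hself z (hXP hz)⟩
  -- no two of them are illuminated by the same direction
  have hpair : ∀ x ∈ X, ∀ y ∈ X, ∀ v, Co K x v → Co K y v → x = y := by
    intro x hx y hy v hxv hyv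
    by_contra hxy
    refine hno ⟨insert v (((X.erase x).erase y).image (fun z => p - z)), ?_, ?_⟩
    · have h1 : ((X.erase x).erase y).card = X.card - 1 - 1 := by
        rw [Finset.card_erase_of_mem (Finset.mem_erase.2 ⟨fun h => hxy h.symm, hy⟩),
          Finset.card_erase_of_mem hx]
      have h2 := Finset.card_insert_le v (((X.erase x).erase y).image (fun z => p - z))
      have h3 : (((X.erase x).erase y).image (fun z => p - z)).card ≤ X.card - 1 - 1 :=
        h1 ▸ Finset.card_image_le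
      have h4 : 1 < X.card := Finset.one_lt_card.2 ⟨x, hx, y, hy, hxy⟩
      omega
    · refine dirs_of_points hK X hXP hXext _ fun z hz => ?_
      by_cases h1 : z = x
      · subst h1; exact ⟨v, Finset.mem_insert_self _ _, hxv⟩
      by_cases h2 : z = y
      · subst h2; exact ⟨v, Finset.mem_insert_self _ _, hyv⟩
      exact ⟨p - z, Finset.mem_insert_of_mem (Finset.mem_image_of_mem _
        (Finset.mem_erase.2 ⟨h2, Finset.mem_erase.2 ⟨h1, hz⟩⟩)), hself z (hXP hz)⟩
  refine (Pool.Agent.H2R2.Frac.primal n hn K hK.2.1 hK.1 hK.2.2).2.1 ?_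
  intro T w hw hcov
  -- each translate serves at most one extreme point
  have hone : ∀ t ∈ T, ∑ x ∈ X, (interior K).indicator (fun _ => w t) (x - t) ≤ w t := by
    intro t ht
    by_cases hex : ∃ x ∈ X, x - t ∈ interior K
    · obtain ⟨x, hx, hxt⟩ := hex
      rw [Finset.sum_eq_single x]
      · rw [Set.indicator_of_mem hxt]
      · intro y hy hyx
        refine Set.indicator_of_notMem (fun hyt => hyx ?_) _
        have hill : ∀ z, z - t ∈ interior K → Co K z (-t) := fun z hz =>
          ⟨1, one_pos, by rwa [one_smul, ← sub_eq_add_neg]⟩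
        exact hpair y hy x hx _ (hill y hyt) (hill x hxt)
      · intro h1; exact absurd hx h1
    · push Not at hex
      rw [Finset.sum_eq_zero fun x hx => Set.indicator_of_notMem (hex x hx) _]
      exact hw t ht
  have h1 : ∑ x ∈ X, (1 : ℝ) ≤ ∑ x ∈ X, ∑ t ∈ T, (interior K).indicator (fun _ => w t) (x - t) :=
    Finset.sum_le_sum fun x hx => hcov x (hXP hx)
  rw [Finset.sum_comm] at h1
  have h2 := h1.trans (Finset.sum_le_sum hone)
  simp only [Finset.sum_const, nsmul_eq_mul, mul_one] at h2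
  rw [hcard] at h2
  exact_mod_cast h2

/-- A parallelotope is the convex hull of at most `2 ^ k` points. -/
theorem hull_of_para {k : ℕ} {L : Set (Eu k)} (h : IsParallelotope L) :
    ∃ Z : Finset (Eu k), Z.card ≤ 2 ^ k ∧ L = convexHull ℝ (Z : Set (Eu k)) := by
  classical
  obtain ⟨p, v, _, hL⟩ := h
  let g : (Fin k → ℝ) →ᵃ[ℝ] Eu k :=
    (AffineEquiv.constVAdd ℝ _ p).toAffineMap.comp
      (Fintype.linearCombination ℝ v).toAffineMap
  have hg : ∀ z, g z = p + ∑ i, z i • v i := fun z => by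
    show p +ᵥ (Fintype.linearCombination ℝ v) z = _
    rw [Fintype.linearCombination_apply]; rfl
  refine ⟨(Fintype.piFinset fun _ : Fin k => ({0, 1} : Finset ℝ)).image g, ?_, ?_⟩
  · refine Finset.card_image_le.trans ?_
    rw [Fintype.card_piFinset]
    calc ∏ _i : Fin k, ({0, 1} : Finset ℝ).card ≤ ∏ _i : Fin k, 2 :=
          Finset.prod_le_prod' fun i _ => Finset.card_le_two
      _ = 2 ^ k := by simp
  · have h1 : (Set.pi univ fun _ : Fin k => Icc (0 : ℝ) 1) = convexHull ℝ
        ((Fintype.piFinset fun _ : Fin k => ({0, 1} : Finset ℝ) : Finset (Fin k → ℝ)) :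
          Set (Fin k → ℝ)) := by
      rw [Fintype.coe_piFinset, convexHull_pi]
      congr 1
      ext i : 1
      rw [Finset.coe_pair, convexHull_pair, segment_eq_Icc zero_le_one]
    rw [Finset.coe_image, ← AffineMap.image_convexHull, ← h1, hL]
    ext x
    constructor
    · rintro ⟨a, ha, rfl⟩
      exact ⟨a, fun i _ => ⟨(ha i).1, (ha i).2⟩, hg a⟩
    · rintro ⟨a, ha, rfl⟩
      exact ⟨a, fun i => ⟨(ha i trivial).1, (ha i trivial).2⟩, hg a⟩

open Pool.Agent.W677.Summand in
/-- the pieces, in the dimensions in which the conjecture is true -/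
theorem piece_of_conj {d : ℕ} {A : Set (Eu d)} (hne : A.Nonempty) (hA : Convex ℝ A)
    (hAc : IsCompact A) (hc : dim A ≤ 2 ∨ ConjectureInDimension (dim A)) :
    PieceDirs A (2 ^ dim A) ∧ (PieceDirs A (2 ^ dim A - 1) ∨ ∃ Z : Finset (Eu d),
      Z.card ≤ 2 ^ dim A ∧ A = convexHull ℝ (Z : Set (Eu d))) := by
  classical
  rcases Nat.lt_or_ge 2 (dim A) with h2 | h2
  swap
  · exact low_piece hne hA hAc h2
  have hconj := hc.resolve_left (by omega)
  obtain ⟨a₀, ha₀⟩ := hne
  obtain ⟨f, hf⟩ := coords (vectorSpan ℝ A) (k := dim A) rfl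
  have hL : IsConvexBody (Lset f A a₀) :=
    ⟨Lset_convex hA, Lset_compact (fun x hx => (hf x).1 hx) ha₀ hAc, Lset_int hf ha₀ hA⟩
  obtain ⟨h3, h4⟩ := hconj _ hL
  refine ⟨pd_of_dirs ha₀ hf (dirs_of_cover h3), ?_⟩
  by_cases h5 : CoveredBy (Lset f A a₀) (2 ^ dim A - 1)
  · exact Or.inl (pd_of_dirs ha₀ hf (dirs_of_cover h5))
  · exact Or.inr (hull_image ha₀ hf (hull_of_para (h4 h5)))

/-- the assembly -/
theorem assemble {d : ℕ} (hd : 1 ≤ d) {K : Set (Eu d)} (hK : IsConvexBody K) {m : ℕ}
    (A : Fin m → Set (Eu d)) (hA : ∀ j, Convex ℝ (A j)) (hAc : ∀ j, IsCompact (A j))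
    (hAP : ∀ j, A j ⊆ K) (hext : K.extremePoints ℝ ⊆ ⋃ j, A j) (e : Fin m → ℕ)
    (hsum : ∑ j, 2 ^ e j ≤ 2 ^ d)
    (hp : ∀ j, (A j).Nonempty → PieceDirs (A j) (2 ^ e j) ∧
      (PieceDirs (A j) (2 ^ e j - 1) ∨ ∃ Z : Finset (Eu d),
        Z.card ≤ 2 ^ e j ∧ A j = convexHull ℝ (Z : Set (Eu d)))) : BothParts K := by
  classical
  constructor
  · obtain ⟨D, hD, h1⟩ := dirs_of_pieces hK A hA hAc hAP hext (fun j => 2 ^ e j)
      (fun j hj => (hp j hj).1)
    exact cov_of_dirs hK ⟨D, hD.trans hsum, h1⟩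
  intro hno
  have hno' : ¬ ∃ D : Finset (Eu d), D.card ≤ 2 ^ d - 1 ∧
      ∀ x ∈ K, ∃ v ∈ D, Co K x v := fun h => hno (cov_of_dirs hK h)
  -- all pieces are convex hulls of few points
  have hZ : ∀ j, ∃ Z : Finset (Eu d), Z.card ≤ 2 ^ e j ∧ A j = convexHull ℝ (Z : Set (Eu d)) := by
    intro j
    rcases (A j).eq_empty_or_nonempty with h0 | h0
    · exact ⟨∅, by simp, by rw [h0, Finset.coe_empty, convexHull_empty]⟩
    refine ((hp j h0).2).resolve_left fun h1 => hno' ?_
    obtain ⟨D, hD, h2⟩ := dirs_of_pieces hK A hA hAc hAP hext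
      (fun i => if i = j then 2 ^ e j - 1 else 2 ^ e i) (fun i hi => by
        by_cases hij : i = j
        · subst hij; simpa using h1
        · simpa [hij] using (hp i hi).1)
    refine ⟨D, hD.trans ?_, h2⟩
    have h3 : ∑ i, (if i = j then 2 ^ e j - 1 else 2 ^ e i) + 1 = ∑ i, 2 ^ e i := by
      rw [← Finset.add_sum_erase _ _ (Finset.mem_univ j),
        ← Finset.add_sum_erase Finset.univ (fun i => 2 ^ e i) (Finset.mem_univ j), if_pos rfl,
        Finset.sum_congr rfl (fun i hi => if_neg (Finset.ne_of_mem_erase hi))]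
      have : 0 < 2 ^ e j := by positivity
      omega
    omega
  choose Z hZ1 hZ2 using hZ
  have h1 : K.extremePoints ℝ ⊆ ((Finset.univ.biUnion Z : Finset (Eu d)) : Set (Eu d)) := by
    intro x hx
    obtain ⟨j, hj⟩ := mem_iUnion.1 (hext hx)
    have h2 : x ∈ (A j).extremePoints ℝ :=
      mem_extremePoints_iff_forall_segment.2 ⟨hj, fun y hy z hz hxyz =>
        (mem_extremePoints_iff_forall_segment.1 hx).2 y (hAP j hy) z (hAP j hz) hxyz⟩
    rw [hZ2 j] at h2
    have h3 := extremePoints_convexHull_subset h2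
    exact Finset.mem_coe.2 (Finset.mem_biUnion.2 ⟨j, Finset.mem_univ j, Finset.mem_coe.1 h3⟩)
  exact para_of_points hd hK (Finset.univ.biUnion Z)
    ((Finset.card_biUnion_le.trans (Finset.sum_le_sum fun j _ => hZ1 j)).trans hsum) h1 hno'

/-- the piece in a flat -/
theorem dim_flat {d : ℕ} (P : Set (Eu d)) (E : AffineSubspace ℝ (Eu d)) :
    dim (P ∩ (E : Set (Eu d))) ≤ flatDim E := by
  refine Submodule.finrank_mono ?_
  rw [AffineSubspace.direction_eq_vectorSpan]
  exact vectorSpan_mono ℝ inter_subset_right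

/-- the bound `13` in dimension three, for a set in a space of dimension `k = 3` -/
theorem thirteen {k : ℕ} (hk : k = 3) (L : Set (Eu k)) (hL : IsConvexBody L) :
    CoveredBy L 13 := by
  subst hk
  exact Pool.Agent.Results.MP_eba1ef_gt.ThirteenInSpace.result L hL.1 hL.2.1 hL.2.2

open Pool.Agent.W677.Summand in
/-- the bound `β` for all dimensions -/
theorem piece_beta {d : ℕ} {A : Set (Eu d)} (hne : A.Nonempty) (hA : Convex ℝ A)
    (hAc : IsCompact A) : ∃ N : ℕ, (N : ℝ) ≤ beta (dim A) ∧ PieceDirs A N := by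
  classical
  rcases Nat.lt_or_ge 2 (dim A) with h2 | h2
  swap
  · refine ⟨2 ^ dim A, ?_, (low_piece hne hA hAc h2).1⟩
    rw [beta, if_pos h2]
    push_cast; rfl
  obtain ⟨a₀, ha₀⟩ := hne
  obtain ⟨f, hf⟩ := coords (vectorSpan ℝ A) (k := dim A) rfl
  have hLv : Convex ℝ (Lset f A a₀) := Lset_convex hA
  have hLk : IsCompact (Lset f A a₀) := Lset_compact (fun x hx => (hf x).1 hx) ha₀ hAc
  by_cases h3 : dim A = 3
  · have h4 : CoveredBy (Lset f A a₀) 13 := thirteen h3 _ ⟨hLv, hLk, Lset_int hf ha₀ hA⟩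
    refine ⟨13, ?_, pd_of_dirs ha₀ hf (dirs_of_cover h4)⟩
    rw [beta, if_neg (by omega), if_pos h3]
    norm_num
  obtain ⟨T, hT1, hT2⟩ := Pool.Agent.Results.MP_eba1ef_gt.AllConvexBodies.result (dim A)
    (by omega) (Lset f A a₀) hLv hLk (Lset_int hf ha₀ hA)
  refine ⟨T.card, ?_, pd_of_dirs ha₀ hf (dirs_of_cover ⟨T, le_rfl, hT1⟩)⟩
  rw [beta, if_neg (by omega), if_neg h3]
  exact hT2

/-- **Main theorem.** Let `K` be a convex body in `ℝ^d`. (1) If compact convex subsets `A j` of `K`
contain all extreme points of `K`, then `K` is covered by `∑ N j` translates of its interior, `N j`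
a number of translates of the relative interior of `A j` covering `A j` (or `dim (A j) + 1` if `A j`
is smooth). Let the extreme points of `K` lie in the flats `E j`. (2) If the flats have dimensions at
most two and `∑ 2 ^ dim ≤ 2 ^ d`, then both parts of the conjecture are true for `K`. (3) If
`∑ β(dim) ≤ 2 ^ d`, then `K` is covered by `2 ^ d` translates of its interior. (4) If the conjecture
is true in the dimensions `3, ..., d - 1`, the flats are proper and `∑ 2 ^ dim ≤ 2 ^ d`, then both
parts of it are true for `K`. (5) In particular this holds if `K` is a body of least dimension for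
which one of the parts is false: then the extreme points of `K` are not in two hyperplanes. -/
theorem result (d : ℕ) (hd : 1 ≤ d) (K : Set (Eu d)) (hK : IsConvexBody K) (m : ℕ) :
    SumBound K m ∧ FlatBounds K m ∧
      (ConjectureBelow d → ¬ BothParts K → ¬ InTwoHyperplanes K) := by
  classical
  have main : ∀ m : ℕ, FlatBounds K m := by
    intro m E hE
    have hA : ∀ j, Convex ℝ (K ∩ (E j : Set (Eu d))) := fun j => hK.1.inter (E j).convex
    have hAc : ∀ j, IsCompact (K ∩ (E j : Set (Eu d))) := fun j =>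
      hK.2.1.inter_right (E j).closed_of_finiteDimensional
    have hext : K.extremePoints ℝ ⊆ ⋃ j, (K ∩ (E j : Set (Eu d))) := by
      intro x hx
      obtain ⟨j, hj⟩ := mem_iUnion.1 (hE hx)
      exact mem_iUnion.2 ⟨j, hx.1, hj⟩
    have hle : ∀ j, dim (K ∩ (E j : Set (Eu d))) ≤ flatDim (E j) := fun j => dim_flat _ _
    have hsum : ∑ j, 2 ^ flatDim (E j) ≤ 2 ^ d →
        ∑ j, 2 ^ dim (K ∩ (E j : Set (Eu d))) ≤ 2 ^ d := fun h =>
      (Finset.sum_le_sum fun j _ => Nat.pow_le_pow_right (by norm_num) (hle j)).trans h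
    refine ⟨?_, ?_, ?_⟩
    · rintro ⟨h2, hs⟩
      exact assemble hd hK _ hA hAc (fun j => inter_subset_left) hext _ (hsum hs)
        (fun j hj => piece_of_conj hj (hA j) (hAc j) (Or.inl ((hle j).trans (h2 j))))
    · intro hs
      have h1 : ∀ j, ∃ N : ℕ, (N : ℝ) ≤ beta (flatDim (E j)) ∧
          ((K ∩ (E j : Set (Eu d))).Nonempty → PieceDirs (K ∩ (E j : Set (Eu d))) N) := by
        intro j
        rcases (K ∩ (E j : Set (Eu d))).eq_empty_or_nonempty with h0 | h0
        · refine ⟨0, ?_, fun h => ?_⟩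
          · have h3 := beta_mono (Nat.zero_le (flatDim (E j)))
            rw [beta, if_pos (by norm_num)] at h3
            push_cast
            linarith
          · rw [h0] at h; exact absurd h Set.not_nonempty_empty
        · obtain ⟨N, hN, h2⟩ := piece_beta h0 (hA j) (hAc j)
          exact ⟨N, hN.trans (beta_mono (hle j)), fun _ => h2⟩
      choose N hN1 hN2 using h1
      obtain ⟨D, hD, h2⟩ := dirs_of_pieces hK _ hA hAc (fun j => inter_subset_left) hext N hN2
      refine cov_of_dirs hK ⟨D, hD.trans ?_, h2⟩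
      have h3 : ((∑ j, N j : ℕ) : ℝ) ≤ 2 ^ d := by
        push_cast
        exact (Finset.sum_le_sum fun j _ => hN1 j).trans hs
      exact_mod_cast h3
    · rintro hconj ⟨hlt, hs⟩
      refine assemble hd hK _ hA hAc (fun j => inter_subset_left) hext _ (hsum hs)
        (fun j hj => piece_of_conj hj (hA j) (hAc j) ?_)
      rcases Nat.lt_or_ge 2 (dim (K ∩ (E j : Set (Eu d)))) with h2 | h2
      · exact Or.inr (hconj _ h2 ((hle j).trans_lt (hlt j)))
      · exact Or.inl h2
  refine ⟨?_, main m, ?_⟩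
  · intro A N hA hext hN
    obtain ⟨D, hD, h1⟩ := dirs_of_pieces hK A (fun j => (hA j).1) (fun j => (hA j).2.1)
      (fun j => (hA j).2.2) hext N (fun j hj => by
        rcases hN j with h | ⟨h, hNj⟩
        · exact pd_of_rel hj h
        · rw [hNj]
          exact pd_of_smooth hj (hA j).1 h)
    exact cov_of_dirs hK ⟨D, hD, h1⟩
  · rintro hconj hbad ⟨E, hE, hEF⟩
    have hlt : ∀ G : AffineSubspace ℝ (Eu d), G ≠ ⊤ → flatDim G < d ∧ 2 ^ flatDim G * 2 ≤ 2 ^ d := by
      intro G hG
      have h1 : flatDim G < d := by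
        rcases (G : Set (Eu d)).eq_empty_or_nonempty with h0 | h0
        · have h2 : G = ⊥ := (AffineSubspace.coe_eq_bot_iff G).1 h0
          show finrank ℝ G.direction < d
          rw [h2, AffineSubspace.direction_bot, finrank_bot]
          omega
        · have h2 : G.direction ≠ ⊤ := fun h =>
            hG ((AffineSubspace.direction_eq_top_iff_of_nonempty h0).1 h)
          have h3 := Submodule.finrank_lt h2
          rwa [finrank_euclideanSpace, Fintype.card_fin] at h3
      refine ⟨h1, ?_⟩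
      rw [← pow_succ]
      exact Nat.pow_le_pow_right (by norm_num) h1
    refine hbad ((main 2 E hEF).2.2 hconj ⟨fun j => (hlt _ (hE j)).1, ?_⟩)
    rw [Fin.sum_univ_two]
    have h1 := (hlt _ (hE 0)).2
    have h2 := (hlt _ (hE 1)).2
    omega

end Pool.Agent.Results.MP_eba1ef_gt.ExtremePointsInFlats
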